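import Pool.Agent.T9h86.Core.Asm
import Pool.Agent.T9h46.Sop.Free

/-!
Core and graded core of `I_N` differ for all large `N`, for a graded ring which is free over a
polynomial subring with generators in the right degrees (helper file).
-/

set_option autoImplicit false

namespace Pool.Agent.T9h86.NA

open Pool.Agent.T9h29.NA (IsFreeBasis core gradedCore tail)

universe u v

/-- **Core and graded core.** Let `S = ⨁ 𝒜 n` be a graded algebra over an infinite field `K = 𝒜 0`, free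
over `K[θ_1..θ_d]`, `d ≥ 2`, with the basis `b_i`, where the `θ_j` have the degree `q ≥ 2` and the `b_i`
the degrees `deg i ≤ q d - 1`, exactly one of them `q d - 1` and none `q d - 2` (so the
`a`-invariant is `-1` and the canonical module has no elements of degree two), and let the ideal
generated by `𝒜 n` contain all elements of large degree, for all large `n`. Then the core and the
graded core of `I_N = ⨁_{n ≥ N} 𝒜 n` differ for all large `N`. -/
theorem core_ne_gradedCore {K : Type v} {S : Type u} [Field K] [Infinite K] [CommRing S]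
    [Nontrivial S] [Algebra K S] (𝒜 : ℕ → Submodule K S) [GradedAlgebra 𝒜]
    (h0 : ∀ s ∈ 𝒜 0, ∃ c : K, algebraMap K S c = s) {d q : ℕ} (hd : 2 ≤ d) (hq : 2 ≤ q)
    (θ : Fin d → S) (hθ : ∀ i, θ i ∈ 𝒜 q) {I : Type} [Fintype I] (b : I → S) (deg : I → ℕ)
    (hb : ∀ i, b i ∈ 𝒜 (deg i)) (hfree : IsFreeBasis K θ b) (hle : ∀ i, deg i + 1 ≤ q * d)
    (htop : ∃! i, deg i + 1 = q * d) (hno : ∀ i, deg i + 2 ≠ q * d)
    (hprim : ∃ n0, ∀ n ≥ n0, ∃ j0, ∀ j ≥ j0, ∀ a ∈ 𝒜 j, a ∈ Ideal.span (𝒜 n : Set S)) :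
    ∃ N0, ∀ N ≥ N0, core (tail 𝒜 N) ≠ gradedCore 𝒜 (tail 𝒜 N) := by
  have hq0 : 0 < q := by omega
  have i1 : IsNoetherianRing S := Pool.Agent.T9h46.Sop.isNoetherianRing hfree
  have i2 : ∀ m, Module.Finite K (𝒜 m) := Pool.Agent.T9h46.Sop.finite_part hfree 𝒜 hθ hb hq0
  exact Pool.Agent.T9h86.Core.core_ne_of_sop 𝒜 h0 hd hq hθ (Pool.Agent.T9h46.Sop.regSeq_theta hfree)
    (Pool.Agent.T9h46.Sop.sop_theta hfree 𝒜 hθ hb) deg
    (Pool.Agent.T9h46.Sop.hilb_theta hfree 𝒜 hθ hb hq0) hle htop hno hprim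

end Pool.Agent.T9h86.NA
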