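import Mathlib

/-!
The two highest coefficients of the polynomial `Q` with `Q (1 - X^q)^d = P (1 - X^N)^d` (helper file).
-/

set_option autoImplicit false

namespace Pool.Agent.T9h86.Core

open Polynomial

theorem nextCoeff_X_pow_sub_one {q : ℕ} (hq : 2 ≤ q) : (X ^ q - 1 : ℤ[X]).nextCoeff = 0 := by
  have h1 : (X ^ q - 1 : ℤ[X]).natDegree = q := by
    rw [← C_1, natDegree_X_pow_sub_C]
  rw [nextCoeff_of_natDegree_pos (by omega), h1, coeff_sub, coeff_X_pow, coeff_one,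
    if_neg (by omega), if_neg (by omega), sub_zero]

theorem monic_X_pow_sub_one {q : ℕ} (hq : 1 ≤ q) : (X ^ q - 1 : ℤ[X]).Monic := by
  rw [← C_1]
  exact monic_X_pow_sub_C 1 (by omega)

theorem top_coeffs {P Q : ℤ[X]} {q N d : ℕ} (hq : 2 ≤ q) (hN : 2 ≤ N) (hd : 1 ≤ d)
    (h : Q * (1 - X ^ q) ^ d = P * (1 - X ^ N) ^ d) (hP : P.natDegree + 1 ≤ q * d)
    (hlead : P.coeff (q * d - 1) = 1) (hsub : P.coeff (q * d - 2) = 0) :
    (∀ m, N * d ≤ m → Q.coeff m = 0) ∧ Q.coeff (N * d - 1) = 1 ∧ Q.coeff (N * d - 2) = 0 := by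
  have hqd : 2 ≤ q * d := by nlinarith
  have hNd : 2 ≤ N * d := by nlinarith
  have hPd : P.natDegree = q * d - 1 := by
    apply le_antisymm (by omega)
    apply le_natDegree_of_ne_zero
    rw [hlead]
    exact one_ne_zero
  have hPm : P.Monic := by
    rw [Monic, leadingCoeff, hPd, hlead]
  have hPn : P.nextCoeff = 0 := by
    rw [nextCoeff_of_natDegree_pos (by omega), hPd]
    rwa [show q * d - 1 - 1 = q * d - 2 by omega]
  have hmq := (monic_X_pow_sub_one (q := q) (by omega)).pow d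
  have hmN := (monic_X_pow_sub_one (q := N) (by omega)).pow d
  have h' : Q * (X ^ q - 1) ^ d = P * (X ^ N - 1) ^ d := by
    have e1 : ∀ k : ℕ, (1 - X ^ k : ℤ[X]) ^ d = (-1) ^ d * (X ^ k - 1) ^ d := by
      intro k
      rw [← mul_pow]
      congr 1
      ring
    rw [e1, e1] at h
    have e2 : (-1 : ℤ[X]) ^ d * (-1) ^ d = 1 := by
      rw [← mul_pow, neg_mul_neg, one_mul, one_pow]
    calc Q * (X ^ q - 1) ^ d = ((-1) ^ d * (-1) ^ d) * (Q * (X ^ q - 1) ^ d) := by rw [e2, one_mul]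
      _ = (-1) ^ d * (Q * ((-1) ^ d * (X ^ q - 1) ^ d)) := by ring
      _ = (-1) ^ d * (P * ((-1) ^ d * (X ^ N - 1) ^ d)) := by rw [h]
      _ = ((-1) ^ d * (-1) ^ d) * (P * (X ^ N - 1) ^ d) := by ring
      _ = P * (X ^ N - 1) ^ d := by rw [e2, one_mul]
  have hQm : Q.Monic := by
    rw [Monic, ← leadingCoeff_mul_monic hmq (p := Q), h', leadingCoeff_mul_monic hmN, hPm.leadingCoeff]
  have hdeg : ∀ k : ℕ, 1 ≤ k → ((X ^ k - 1 : ℤ[X]) ^ d).natDegree = k * d := by
    intro k _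
    rw [natDegree_pow, ← C_1, natDegree_X_pow_sub_C, mul_comm]
  have hQd : Q.natDegree = N * d - 1 := by
    have h1 := hQm.natDegree_mul hmq
    have h2 := hPm.natDegree_mul hmN
    rw [h', h2, hdeg _ (by omega), hdeg _ (by omega), hPd] at h1
    omega
  have hQn : Q.nextCoeff = 0 := by
    have h1 := hQm.nextCoeff_mul hmq
    have h2 := hPm.nextCoeff_mul hmN
    rw [(monic_X_pow_sub_one (q := q) (by omega)).nextCoeff_pow, nextCoeff_X_pow_sub_one hq] at h1
    rw [(monic_X_pow_sub_one (q := N) (by omega)).nextCoeff_pow, nextCoeff_X_pow_sub_one hN, hPn] at h2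
    rw [h', h2] at h1
    simpa using h1.symm
  refine ⟨fun m hm => coeff_eq_zero_of_natDegree_lt (by omega), ?_, ?_⟩
  · rw [← hQd]
    exact hQm
  · rw [nextCoeff_of_natDegree_pos (by omega), hQd] at hQn
    rwa [show N * d - 2 = N * d - 1 - 1 by omega]

end Pool.Agent.T9h86.Core
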