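import Pool.Agent.T9h86.Core.Main
import Pool.Agent.T9h86.Core.Top
import Pool.Agent.T9h46.Sop.Exist
import Pool.Agent.T9h46.Sop.Hilbert
import Pool.Agent.T9h29.NA.Iface

/-!
Core and graded core differ: assembly from the Hilbert series (helper file).
-/

set_option autoImplicit false

namespace Pool.Agent.T9h86.Core

open DirectSum Polynomial
open Pool.Agent.T9h46.Sop (RegSeq hilb)

universe u v

/-- The Hilbert function of the quotient by a system of parameters of degree `N`. -/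
theorem hilb_top {H : PowerSeries ℤ} {d q N b : ℕ} {P : ℤ[X]} (hq : 2 ≤ q) (hN : 2 ≤ N) (hd : 1 ≤ d)
    (hP : H * (1 - PowerSeries.X ^ q) ^ d = (P : PowerSeries ℤ)) (hdeg : P.natDegree + 1 ≤ q * d)
    (hlead : P.coeff (q * d - 1) = 1) (hsub : P.coeff (q * d - 2) = 0) {a : ℕ → ℤ}
    (ha : ∀ m, b ≤ m → a m = 0)
    (hilb : PowerSeries.mk a = H * (1 - PowerSeries.X ^ N) ^ d) :
    a (N * d - 1) = 1 ∧ a (N * d - 2) = 0 := by
  set Q : ℤ[X] := ∑ m ∈ Finset.range b, C (a m) * X ^ m with hQ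
  have hQc : ∀ m, Q.coeff m = a m := by
    intro m
    rw [hQ, finsetSum_coeff]
    simp only [coeff_C_mul, coeff_X_pow, mul_ite, mul_one, mul_zero]
    rw [Finset.sum_ite_eq]
    split_ifs with h
    · rfl
    · rw [Finset.mem_range, not_lt] at h
      rw [ha m h]
  have hQs : (Q : PowerSeries ℤ) = PowerSeries.mk a := by
    ext m
    rw [coeff_coe, PowerSeries.coeff_mk, hQc]
  have hident : Q * (1 - X ^ q) ^ d = P * (1 - X ^ N) ^ d := by
    apply Polynomial.coe_injective ℤ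
    rw [coe_mul, coe_mul, coe_pow, coe_pow, coe_sub, coe_sub, coe_one, coe_pow, coe_pow, coe_X,
      hQs, hilb, ← hP]
    ring
  obtain ⟨-, h2, h3⟩ := top_coeffs hq hN hd hident hdeg hlead hsub
  rw [hQc] at h2 h3
  exact ⟨h2, h3⟩

/-- the generating function of the degrees of a basis -/
theorem degrees {I : Type*} [Fintype I] (deg : I → ℕ) {B : ℕ} (hB : 2 ≤ B)
    (h1 : ∀ i, deg i + 1 ≤ B) (h2 : ∃! i, deg i + 1 = B)
    (h3 : ∀ i, deg i + 2 ≠ B) :
    (∑ i, (X : ℤ[X]) ^ deg i).natDegree + 1 ≤ B ∧ (∑ i, (X : ℤ[X]) ^ deg i).coeff (B - 1) = 1 ∧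
      (∑ i, (X : ℤ[X]) ^ deg i).coeff (B - 2) = 0 := by
  classical
  obtain ⟨i₀, hi₀, hu⟩ := h2
  refine ⟨?_, ?_, ?_⟩
  · have h4 : (∑ i, (X : ℤ[X]) ^ deg i).natDegree ≤ B - 1 := by
      refine natDegree_sum_le_of_forall_le _ _ fun i _ => ?_
      rw [natDegree_X_pow]
      have := h1 i
      omega
    omega
  · rw [finsetSum_coeff, Finset.sum_eq_single i₀]
    · rw [coeff_X_pow, if_pos (by omega)]
    · intro i _ hi
      rw [coeff_X_pow, if_neg]
      intro h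
      apply hi
      apply hu
      have := h1 i
      omega
    · exact fun h => absurd (Finset.mem_univ _) h
  · rw [finsetSum_coeff]
    refine Finset.sum_eq_zero fun i _ => ?_
    have g1 := h3 i
    have g2 := h1 i
    have g3 : ¬ (B - 2 = deg i) := by omega
    rw [coeff_X_pow, if_neg g3]

theorem coeff_degrees {I : Type*} [Fintype I] (deg : I → ℕ) (m : ℕ) :
    (∑ i, (X : ℤ[X]) ^ deg i).coeff m = ((Finset.univ.filter fun i => deg i = m).card : ℤ) := by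
  rw [finsetSum_coeff, ← Finset.sum_boole]
  refine Finset.sum_congr rfl fun i _ => ?_
  rw [coeff_X_pow]
  simp only [eq_comm]

section

variable {S : Type u} [CommRing S]

theorem regSeq_last {D : ℕ} {f : Fin (D + 1) → S} (h : RegSeq f) (x : S)
    (hx : f (Fin.last D) * x ∈ Ideal.span (Set.range fun i : Fin D => f i.castSucc)) :
    x ∈ Ideal.span (Set.range fun i : Fin D => f i.castSucc) := by
  have e1 : f '' {j | j < Fin.last D} = Set.range fun i : Fin D => f i.castSucc := by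
    ext y
    simp only [Set.mem_image, Set.mem_ofPred_eq, Set.mem_range]
    constructor
    · rintro ⟨j, hj, rfl⟩
      obtain ⟨i, rfl⟩ : ∃ i : Fin D, i.castSucc = j := ⟨j.castPred hj.ne, Fin.castSucc_castPred j hj.ne⟩
      exact ⟨i, rfl⟩
    · rintro ⟨i, rfl⟩
      exact ⟨i.castSucc, Fin.castSucc_lt_last i, rfl⟩
  have h1 := h (Fin.last D) x
  rw [e1] at h1
  exact h1 hx

end

variable {K : Type v} {S : Type u} [Field K] [CommRing S] [Algebra K S] {𝒜 : ℕ → Submodule K S}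

theorem core_eq (I : Ideal S) : Pool.Agent.T9h29.NA.core I = core I := rfl

theorem tail_eq (N : ℕ) : Pool.Agent.T9h29.NA.tail 𝒜 N = idealGE 𝒜 N := rfl

theorem gradedCore_eq [GradedAlgebra 𝒜] (I : Ideal S) :
    Pool.Agent.T9h29.NA.gradedCore 𝒜 I = gradedCore 𝒜 I := by
  rw [Pool.Agent.T9h29.NA.gradedCore, gradedCore]
  congr 1
  ext J
  exact and_comm

/-- **Assembly**: core and graded core of the ideals `I_N` differ for all large `N`. -/
theorem core_ne_of_sop (𝒜 : ℕ → Submodule K S) [GradedAlgebra 𝒜] [Infinite K] [Nontrivial S]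
    [IsNoetherianRing S] [∀ m, Module.Finite K (𝒜 m)]
    (h0 : ∀ s ∈ 𝒜 0, ∃ c : K, algebraMap K S c = s) {d q : ℕ} (hd : 2 ≤ d) (hq : 2 ≤ q)
    {θ : Fin d → S} (hθ : ∀ i, θ i ∈ 𝒜 q) (hreg : RegSeq θ)
    (hθsop : ∃ j₀, ∀ j ≥ j₀, ∀ a ∈ 𝒜 j, a ∈ Ideal.span (Set.range θ))
    {I : Type*} [Fintype I] (deg : I → ℕ)
    (hdeg : ∀ m, hilb 𝒜 (Ideal.span (Set.range θ)) m = ((Finset.univ.filter fun i => deg i = m).card : ℤ))
    (hle : ∀ i, deg i + 1 ≤ q * d) (htop : ∃! i, deg i + 1 = q * d) (hno : ∀ i, deg i + 2 ≠ q * d)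
    (hprim : ∃ n0, ∀ n ≥ n0, ∃ j0, ∀ j ≥ j0, ∀ a ∈ 𝒜 j, a ∈ Ideal.span (𝒜 n : Set S)) :
    ∃ N0, ∀ N ≥ N0, Pool.Agent.T9h29.NA.core (Pool.Agent.T9h29.NA.tail 𝒜 N) ≠
      Pool.Agent.T9h29.NA.gradedCore 𝒜 (Pool.Agent.T9h29.NA.tail 𝒜 N) := by
  classical
  obtain ⟨n0, hn0⟩ := hprim
  obtain ⟨n₀, hg⟩ := gen_of (hn0 n0 le_rfl) (hn0 (n0 + 1) (by omega))
  obtain ⟨p1, p2, p3⟩ := degrees deg (by nlinarith) hle htop hno
  set P : ℤ[X] := ∑ i, X ^ deg i with hP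
  set H : PowerSeries ℤ := PowerSeries.mk (fun m => (Module.finrank K (𝒜 m) : ℤ)) with hH
  have hHP : H * (1 - PowerSeries.X ^ q) ^ d = (P : PowerSeries ℤ) := by
    rw [hH, ← Pool.Agent.T9h46.Sop.hilb_series 𝒜 hθ hreg]
    ext m
    rw [PowerSeries.coeff_mk, hdeg, coeff_coe, coeff_degrees]
  refine ⟨n₀ + 2, fun N hN => ?_⟩
  rw [core_eq, gradedCore_eq, tail_eq]
  obtain ⟨D, rfl⟩ : ∃ D, d = D + 1 := ⟨d - 1, by omega⟩
  have hplus : ∀ {k : ℕ}, 0 < k → ∀ {x : S}, x ∈ 𝒜 k → x ∈ (HomogeneousIdeal.irrelevant 𝒜).toIdeal :=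
    fun hk _ hx => HomogeneousIdeal.mem_irrelevant_of_mem 𝒜 hk hx
  have hθp : ∀ i, θ i ∈ (HomogeneousIdeal.irrelevant 𝒜).toIdeal := fun i => hplus (by omega) (hθ i)
  have reg : ∀ f : Fin (D + 1) → S, (∀ i, f i ∈ 𝒜 N) → Primary 𝒜 (Set.range f) → RegSeq f :=
    fun f hf hfp => Pool.Agent.T9h46.Sop.regSeq_of_sop 𝒜 h0 hθp hreg
      (fun i => ⟨N, by omega, hf i⟩) hfp
  have key : ∀ f : Fin (D + 1) → S, (∀ i, f i ∈ 𝒜 N) → Primary 𝒜 (Set.range f) →
      hilb 𝒜 (Ideal.span (Set.range f)) (N * (D + 1) - 1) = 1 ∧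
      hilb 𝒜 (Ideal.span (Set.range f)) (N * (D + 1) - 2) = 0 := by
    intro f hf hfp
    obtain ⟨b, hb⟩ := id hfp
    exact hilb_top (b := b) hq (by omega) (by omega) hHP p1 p2 p3
      (fun m hm => (Pool.Agent.T9h46.Sop.hilb_eq_zero_iff 𝒜 _ _).2 (hb m hm))
      (Pool.Agent.T9h46.Sop.hilb_series 𝒜 hf (reg f hf hfp))
  refine core_ne (D := D) (by omega) hg hN ?_ (fun f hf hfp => regSeq_last (reg f hf hfp)) ?_ ?_
  · intro V hV hVp
    exact Pool.Agent.T9h46.Sop.exists_sop 𝒜 h0 hθp hreg hθsop (by omega) V (fun v hv => hV hv) hVp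
  · intro f hf hfp
    rw [mul_comm (D + 1) N]
    exact (Pool.Agent.T9h46.Sop.hilb_eq_zero_iff 𝒜 _ _).1 (key f hf hfp).2
  · intro f hf hfp
    rw [mul_comm (D + 1) N]
    by_contra hcon
    push Not at hcon
    have h1 := (key f hf hfp).1
    rw [(Pool.Agent.T9h46.Sop.hilb_eq_zero_iff 𝒜 _ _).2 hcon] at h1
    exact zero_ne_one h1

end Pool.Agent.T9h86.Core
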