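import Mathlib

/-!
Reductions, core and graded core; the ideals of the elements of large degree (helper file).
-/

set_option autoImplicit false

namespace Pool.Agent.T9h86.Core

open DirectSum

universe u v

/-- `J` is a reduction of the ideal `I`: `J ≤ I` and `J * I ^ r = I ^ (r + 1)` for some `r ≥ 0`. -/
def IsReduction {S : Type v} [CommRing S] (J I : Ideal S) : Prop :=
  J ≤ I ∧ ∃ r : ℕ, J * I ^ r = I ^ (r + 1)

/-- The core of `I`: the intersection of all reductions of `I`. -/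
def core {S : Type v} [CommRing S] (I : Ideal S) : Ideal S :=
  sInf {J : Ideal S | IsReduction J I}

variable {K : Type u} {S : Type v} [Field K] [CommRing S] [Algebra K S]
  (𝒜 : ℕ → Submodule K S)

/-- The graded core of `I`: the intersection of all homogeneous reductions of `I`. -/
def gradedCore [GradedAlgebra 𝒜] (I : Ideal S) : Ideal S :=
  sInf {J : Ideal S | J.IsHomogeneous 𝒜 ∧ IsReduction J I}

/-- The ideal generated by the homogeneous elements of degree at least `N`. -/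
def idealGE (N : ℕ) : Ideal S := Ideal.span {s | ∃ n, N ≤ n ∧ s ∈ 𝒜 n}

/-- The component of degree `n`. -/
def comp [GradedAlgebra 𝒜] (n : ℕ) (x : S) : S := (decompose 𝒜 x n : S)

variable {𝒜}

theorem mem_idealGE {N n : ℕ} (h : N ≤ n) {s : S} (hs : s ∈ 𝒜 n) : s ∈ idealGE 𝒜 N :=
  Ideal.subset_span ⟨n, h, hs⟩

theorem idealGE_anti {M N : ℕ} (h : M ≤ N) : idealGE 𝒜 N ≤ idealGE 𝒜 M :=
  Ideal.span_mono fun _ ⟨n, hn, hs⟩ => ⟨n, h.trans hn, hs⟩

variable [GradedAlgebra 𝒜]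

theorem idealGE_homogeneous (N : ℕ) : (idealGE 𝒜 N).IsHomogeneous 𝒜 :=
  Ideal.homogeneous_span _ _ fun _ ⟨n, _, hs⟩ => ⟨n, hs⟩

theorem comp_mem (n : ℕ) (x : S) : comp 𝒜 n x ∈ 𝒜 n := SetLike.coe_mem _

theorem comp_zero (n : ℕ) : comp 𝒜 n 0 = 0 := by
  rw [comp, decompose_zero]
  rfl

theorem comp_add (n : ℕ) (x y : S) : comp 𝒜 n (x + y) = comp 𝒜 n x + comp 𝒜 n y := by
  rw [comp, decompose_add, DirectSum.add_apply, Submodule.coe_add]
  rfl

theorem comp_sub (n : ℕ) (x y : S) : comp 𝒜 n (x - y) = comp 𝒜 n x - comp 𝒜 n y := by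
  have h := comp_add (𝒜 := 𝒜) n (x - y) y
  rw [sub_add_cancel] at h
  rw [h, add_sub_cancel_right]

theorem comp_sum {ι : Type*} (s : Finset ι) (f : ι → S) (n : ℕ) :
    comp 𝒜 n (∑ i ∈ s, f i) = ∑ i ∈ s, comp 𝒜 n (f i) := by
  classical
  induction s using Finset.induction_on with
  | empty => rw [Finset.sum_empty, Finset.sum_empty, comp_zero]
  | insert a s ha ih => rw [Finset.sum_insert ha, Finset.sum_insert ha, comp_add, ih]

theorem comp_same {n : ℕ} {x : S} (hx : x ∈ 𝒜 n) : comp 𝒜 n x = x := decompose_of_mem_same 𝒜 hx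

theorem comp_ne {m n : ℕ} {x : S} (hx : x ∈ 𝒜 m) (h : m ≠ n) : comp 𝒜 n x = 0 :=
  decompose_of_mem_ne 𝒜 hx h

theorem comp_mul {m n : ℕ} {a x : S} (ha : a ∈ 𝒜 m) (h : m ≤ n) :
    comp 𝒜 n (a * x) = a * comp 𝒜 (n - m) x :=
  coe_decompose_mul_of_left_mem_of_le 𝒜 ha h

theorem comp_mul_lt {m n : ℕ} {a x : S} (ha : a ∈ 𝒜 m) (h : n < m) :
    comp 𝒜 n (a * x) = 0 :=
  coe_decompose_mul_of_left_mem_of_not_le 𝒜 ha (by omega)

theorem comp_mul_add {m j : ℕ} {a x : S} (ha : a ∈ 𝒜 m) :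
    comp 𝒜 (m + j) (a * x) = a * comp 𝒜 j x := by
  rw [comp_mul ha (Nat.le_add_right m j), Nat.add_sub_cancel_left]

/-- An element is a finite sum of its components. -/
theorem exists_sum (x : S) : ∃ s : Finset ℕ, x = ∑ n ∈ s, comp 𝒜 n x ∧ ∀ n ∉ s, comp 𝒜 n x = 0 := by
  classical
  refine ⟨(decompose 𝒜 x).support, (sum_support_decompose 𝒜 x).symm, fun n hn => ?_⟩
  rw [comp, DFinsupp.notMem_support_iff.1 hn]
  rfl

theorem comp_hom {J : Ideal S} (hJ : J.IsHomogeneous 𝒜) {x : S} (hx : x ∈ J) (n : ℕ) :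
    comp 𝒜 n x ∈ J := hJ n hx

/-- The elements of `idealGE 𝒜 N` have no components of degree less than `N`. -/
theorem comp_eq_zero {N : ℕ} {x : S} (hx : x ∈ idealGE 𝒜 N) {n : ℕ} (hn : n < N) :
    comp 𝒜 n x = 0 := by
  have key : ∀ y : S, y ∈ idealGE 𝒜 N → ∀ n, n < N → comp 𝒜 n y = 0 := by
    intro y hy
    refine Submodule.span_induction (p := fun y _ => ∀ n, n < N → comp 𝒜 n y = 0)
      ?_ ?_ ?_ ?_ hy
    · rintro s ⟨m, hm, hs⟩ n hn
      exact comp_ne hs (by omega)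
    · intro n _
      exact comp_zero n
    · intro a b _ _ ha hb n hn
      rw [comp_add, ha n hn, hb n hn, add_zero]
    · intro a b _ hb n hn
      rw [smul_eq_mul]
      obtain ⟨s, hs, -⟩ := exists_sum (𝒜 := 𝒜) a
      rw [hs, Finset.sum_mul, comp_sum]
      refine Finset.sum_eq_zero fun m _ => ?_
      by_cases hmn : m ≤ n
      · rw [comp_mul (comp_mem m a) hmn, hb _ (by omega), mul_zero]
      · exact comp_mul_lt (comp_mem m a) (by omega)
  exact key x hx n hn

theorem mem_idealGE_iff {N : ℕ} {x : S} : x ∈ idealGE 𝒜 N ↔ ∀ n, n < N → comp 𝒜 n x = 0 := by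
  refine ⟨fun h n hn => comp_eq_zero h hn, fun h => ?_⟩
  obtain ⟨s, hs, -⟩ := exists_sum (𝒜 := 𝒜) x
  rw [hs]
  refine Ideal.sum_mem _ fun n _ => ?_
  by_cases hn : n < N
  · rw [h n hn]
    exact Ideal.zero_mem _
  · exact mem_idealGE (by omega) (comp_mem n x)

omit [GradedAlgebra 𝒜] in
/-- It is enough to check an inclusion of an ideal of this kind on homogeneous elements. -/
theorem idealGE_le {N : ℕ} {J : Ideal S} (h : ∀ n, N ≤ n → ∀ x ∈ 𝒜 n, x ∈ J) : idealGE 𝒜 N ≤ J :=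
  Ideal.span_le.2 fun _ ⟨n, hn, hs⟩ => h n hn _ hs

theorem idealGE_mul (M N : ℕ) : idealGE 𝒜 M * idealGE 𝒜 N ≤ idealGE 𝒜 (M + N) := by
  rw [idealGE, idealGE, Ideal.span_mul_span']
  refine Ideal.span_le.2 ?_
  rintro _ ⟨a, ⟨m, hm, ha⟩, b, ⟨n, hn, hb⟩, rfl⟩
  exact mem_idealGE (n := m + n) (by omega) (SetLike.mul_mem_graded ha hb)

/-- **Comparison of the lowest degrees.** -/
theorem lowest {J₁ : Ideal S} (hJ₁ : J₁.IsHomogeneous 𝒜) {N e M : ℕ} {f h a : S} (hf : f ∈ 𝒜 N)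
    (hh : h ∈ 𝒜 (N + 1)) (ha : a ∈ 𝒜 e) (hreg : ∀ x, f * x ∈ J₁ → x ∈ J₁) (hM : e + N + 1 < M)
    (hmem : a * f ∈ Ideal.span {f + h} ⊔ J₁ ⊔ idealGE 𝒜 M) : h * a ∈ Ideal.span {f} ⊔ J₁ := by
  rw [sup_assoc, Submodule.mem_sup] at hmem
  obtain ⟨z, hz, y, hy, hzy⟩ := hmem
  obtain ⟨u, rfl⟩ := Ideal.mem_span_singleton'.1 hz
  -- the components of `y = a f - (f + h) u` of degree less than `M` are in `J₁`
  have hyc : ∀ n, n < M → comp 𝒜 n y ∈ J₁ := by
    intro n hn
    obtain ⟨y₁, hy₁, w, hw, rfl⟩ := Submodule.mem_sup.1 hy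
    rw [comp_add, comp_eq_zero hw hn, add_zero]
    exact comp_hom hJ₁ hy₁ n
  have hy' : y = f * a - f * u - h * u := by
    rw [mul_comm f a, ← hzy]
    ring
  -- the components of `u` of degree less than `e` are in `J₁`
  have hlow : ∀ j, j < e → comp 𝒜 j u ∈ J₁ := by
    intro j
    induction j using Nat.strong_induction_on with
    | _ j ih =>
      intro hj
      have h1 := hyc (N + j) (by omega)
      rw [hy', comp_sub, comp_sub, comp_mul_add hf, comp_mul_add hf, comp_ne ha (by omega),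
        mul_zero, zero_sub] at h1
      have h2 : comp 𝒜 (N + j) (h * u) ∈ J₁ := by
        rcases Nat.eq_zero_or_pos j with rfl | hj0
        · rw [comp_mul_lt hh (by omega)]
          exact Ideal.zero_mem _
        · rw [comp_mul hh (by omega)]
          exact Ideal.mul_mem_left _ _ (ih _ (by omega) (by omega))
      apply hreg
      have h3 := J₁.add_mem h1 h2
      have h4 : -(f * comp 𝒜 j u) - comp 𝒜 (N + j) (h * u) + comp 𝒜 (N + j) (h * u) =
        -(f * comp 𝒜 j u) := by ring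
      rw [h4] at h3
      exact (J₁.neg_mem_iff).1 h3
  -- the component of degree `e`
  have he : a - comp 𝒜 e u ∈ J₁ := by
    have h1 := hyc (N + e) (by omega)
    rw [hy', comp_sub, comp_sub, comp_mul_add hf, comp_mul_add hf, comp_same ha] at h1
    have h2 : comp 𝒜 (N + e) (h * u) ∈ J₁ := by
      rcases Nat.eq_zero_or_pos e with rfl | hj0
      · rw [comp_mul_lt hh (by omega)]
        exact Ideal.zero_mem _
      · rw [comp_mul hh (by omega)]
        exact Ideal.mul_mem_left _ _ (hlow _ (by omega))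
    apply hreg
    have h3 := J₁.add_mem h1 h2
    have h4 : f * a - f * comp 𝒜 e u - comp 𝒜 (N + e) (h * u) + comp 𝒜 (N + e) (h * u) =
      f * (a - comp 𝒜 e u) := by ring
    rwa [h4] at h3
  -- the component of degree `e + 1`
  have h1 := hyc (N + 1 + e) (by omega)
  have h5 : N + 1 + e = N + (1 + e) := by ring
  rw [hy', comp_sub, comp_sub, comp_mul_add hh, h5, comp_mul_add hf, comp_mul_add hf,
    comp_ne ha (by omega), mul_zero, zero_sub] at h1
  have h2 : h * a = -(f * comp 𝒜 (1 + e) u) +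
      (h * (a - comp 𝒜 e u) - (-(f * comp 𝒜 (1 + e) u) - h * comp 𝒜 e u)) := by ring
  rw [h2]
  refine Submodule.add_mem _ ?_ ?_
  · refine Submodule.mem_sup_left ?_
    rw [Ideal.mem_span_singleton]
    exact (dvd_mul_right _ _).neg_right
  · refine Submodule.mem_sup_right (J₁.sub_mem (J₁.mul_mem_left _ he) h1)

end Pool.Agent.T9h86.Core
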