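import Pool.Agent.T9h86.Core.Defs

/-!
Core and graded core of the ideals of the elements of large degree: the comparison (helper file).
-/

set_option autoImplicit false

namespace Pool.Agent.T9h86.Core

open DirectSum

universe u v

variable {K : Type u} {S : Type v} [Field K] [CommRing S] [Algebra K S]
  {𝒜 : ℕ → Submodule K S}

/-- The products of the elements of degrees `m` and `n` span the elements of degree `m + n`, if
`m, n ≥ n₀`. -/
def Gen (𝒜 : ℕ → Submodule K S) (n₀ : ℕ) : Prop :=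
  ∀ m n, n₀ ≤ m → n₀ ≤ n → 𝒜 (m + n) ≤ 𝒜 m * 𝒜 n

/-- `S` is of finite dimension modulo the ideal generated by the set `V`: all elements of large
degree are in this ideal. -/
def Primary (𝒜 : ℕ → Submodule K S) (V : Set S) : Prop :=
  ∃ b : ℕ, ∀ n, b ≤ n → ∀ x ∈ 𝒜 n, x ∈ Ideal.span V

theorem mul_mem_ideal {V W : Submodule K S} {I J : Ideal S} (hV : ∀ x ∈ V, x ∈ I)
    (hW : ∀ x ∈ W, x ∈ J) {x : S} (hx : x ∈ V * W) : x ∈ I * J := by
  refine Submodule.mul_induction_on hx (fun a ha b hb => Ideal.mul_mem_mul (hV a ha) (hW b hb))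
    fun a b ha hb => Ideal.add_mem _ ha hb

variable [GradedAlgebra 𝒜]

theorem mul_le_add (m n : ℕ) : 𝒜 m * 𝒜 n ≤ 𝒜 (m + n) :=
  Submodule.mul_le.2 fun _ ha _ hb => SetLike.mul_mem_graded ha hb

/-- The homogeneous elements of the ideal generated by a subspace of `𝒜 e`. -/
theorem mem_mul_of_span {e : ℕ} {V : Submodule K S} (hV : V ≤ 𝒜 e) {n : ℕ} (hn : e ≤ n) {x : S}
    (hx : x ∈ 𝒜 n) (hxV : x ∈ Ideal.span (V : Set S)) : x ∈ V * 𝒜 (n - e) := by
  have key : ∀ y ∈ Ideal.span (V : Set S),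
      ∀ n, (n < e → comp 𝒜 n y = 0) ∧ (e ≤ n → comp 𝒜 n y ∈ V * 𝒜 (n - e)) := by
    intro y hy
    refine Submodule.span_induction (p := fun y _ => ∀ n, (n < e → comp 𝒜 n y = 0) ∧
      (e ≤ n → comp 𝒜 n y ∈ V * 𝒜 (n - e))) ?_ ?_ ?_ ?_ hy
    · intro v hv n
      refine ⟨fun h => comp_ne (hV hv) (by omega), fun h => ?_⟩
      rcases h.eq_or_lt with rfl | h
      · rw [comp_same (hV hv), Nat.sub_self, ← mul_one v]
        exact Submodule.mul_mem_mul hv (SetLike.GradedOne.one_mem)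
      · rw [comp_ne (hV hv) (by omega)]
        exact Submodule.zero_mem _
    · intro n
      rw [comp_zero]
      exact ⟨fun _ => rfl, fun _ => Submodule.zero_mem _⟩
    · intro a b _ _ ha hb n
      rw [comp_add]
      refine ⟨fun h => ?_, fun h => Submodule.add_mem _ ((ha n).2 h) ((hb n).2 h)⟩
      rw [(ha n).1 h, (hb n).1 h, add_zero]
    · intro a b _ hb n
      rw [smul_eq_mul]
      obtain ⟨s, hs, -⟩ := exists_sum (𝒜 := 𝒜) a
      rw [hs, Finset.sum_mul, comp_sum]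
      constructor
      · intro h
        refine Finset.sum_eq_zero fun m _ => ?_
        by_cases hmn : m ≤ n
        · rw [comp_mul (comp_mem m a) hmn, (hb _).1 (by omega), mul_zero]
        · exact comp_mul_lt (comp_mem m a) (by omega)
      · intro h
        refine Submodule.sum_mem _ fun m _ => ?_
        by_cases hmn : m ≤ n
        · rw [comp_mul (comp_mem m a) hmn]
          by_cases he : n - m < e
          · rw [(hb _).1 he, mul_zero]
            exact Submodule.zero_mem _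
          · have h1 := (hb (n - m)).2 (by omega)
            have h2 : comp 𝒜 m a * comp 𝒜 (n - m) b ∈ 𝒜 m * (V * 𝒜 (n - m - e)) :=
              Submodule.mul_mem_mul (comp_mem m a) h1
            rw [mul_left_comm] at h2
            refine (mul_le_mul' le_rfl ((mul_le_add m (n - m - e)).trans ?_)) h2
            rw [show m + (n - m - e) = n - e by omega]
        · rw [comp_mul_lt (comp_mem m a) (by omega)]
          exact Submodule.zero_mem _
  have h := (key x hxV n).2 hn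
  rwa [comp_same hx] at h

/-- Generation in large degrees from two consecutive degrees. -/
theorem gen_of {e : ℕ} (h1 : Primary 𝒜 (𝒜 e : Set S)) (h2 : Primary 𝒜 (𝒜 (e + 1) : Set S)) :
    ∃ n₀, Gen 𝒜 n₀ := by
  obtain ⟨b₁, hb₁⟩ := h1
  obtain ⟨b₂, hb₂⟩ := h2
  have g1 : ∀ n, b₁ + b₂ + e + 1 ≤ n → 𝒜 n ≤ 𝒜 e * 𝒜 (n - e) := fun n hn x hx =>
    mem_mul_of_span le_rfl (by omega) hx (hb₁ n (by omega) x hx)
  have g2 : ∀ n, b₁ + b₂ + e + 1 ≤ n → 𝒜 n ≤ 𝒜 (e + 1) * 𝒜 (n - (e + 1)) := fun n hn x hx =>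
    mem_mul_of_span le_rfl (by omega) hx (hb₂ n (by omega) x hx)
  set B := b₁ + b₂ + e + 1 with hB
  -- the property of a degree `m`: `𝒜 (m + n) ≤ 𝒜 m * 𝒜 n` for all `n ≥ B`
  have hadd : ∀ m m', (∀ n, B ≤ n → 𝒜 (m + n) ≤ 𝒜 m * 𝒜 n) →
      (∀ n, B ≤ n → 𝒜 (m' + n) ≤ 𝒜 m' * 𝒜 n) → ∀ n, B ≤ n → 𝒜 (m + m' + n) ≤ 𝒜 (m + m') * 𝒜 n := by
    intro m m' hm hm' n hn
    calc 𝒜 (m + m' + n) = 𝒜 (m + (m' + n)) := by rw [add_assoc]
      _ ≤ 𝒜 m * 𝒜 (m' + n) := hm _ (by omega)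
      _ ≤ 𝒜 m * (𝒜 m' * 𝒜 n) := mul_le_mul' le_rfl (hm' n hn)
      _ = 𝒜 m * 𝒜 m' * 𝒜 n := by rw [mul_assoc]
      _ ≤ 𝒜 (m + m') * 𝒜 n := mul_le_mul' (mul_le_add m m') le_rfl
  have p0 : ∀ n, B ≤ n → 𝒜 (0 + n) ≤ 𝒜 0 * 𝒜 n := by
    intro n _ x hx
    rw [zero_add] at hx
    rw [← one_mul x]
    exact Submodule.mul_mem_mul SetLike.GradedOne.one_mem hx
  have p1 : ∀ n, B ≤ n → 𝒜 (e + n) ≤ 𝒜 e * 𝒜 n := by
    intro n hn
    have := g1 (e + n) (by omega)
    rwa [Nat.add_sub_cancel_left] at this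
  have p2 : ∀ n, B ≤ n → 𝒜 (e + 1 + n) ≤ 𝒜 (e + 1) * 𝒜 n := by
    intro n hn
    have := g2 (e + 1 + n) (by omega)
    rwa [Nat.add_sub_cancel_left] at this
  have hmul : ∀ m, (∀ n, B ≤ n → 𝒜 (m + n) ≤ 𝒜 m * 𝒜 n) → ∀ k n, B ≤ n →
      𝒜 (k * m + n) ≤ 𝒜 (k * m) * 𝒜 n := by
    intro m hm k
    induction k with
    | zero => rw [zero_mul]; exact p0
    | succ k ih => rw [Nat.succ_mul]; exact hadd _ _ ih hm
  refine ⟨B + (e + 1) * (e + 1), fun m n hm hn => ?_⟩
  -- `m = x e + y (e + 1)`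
  obtain ⟨x, y, hxy⟩ : ∃ x y : ℕ, m = x * e + y * (e + 1) := by
    rcases Nat.eq_zero_or_pos e with rfl | he
    · exact ⟨0, m, by ring⟩
    · have h3 := Nat.div_add_mod m e
      have h4 := Nat.mod_lt m he
      have h5 : e ≤ m / e := by
        rw [Nat.le_div_iff_mul_le he]
        nlinarith
      refine ⟨m / e - m % e, m % e, ?_⟩
      have h6 : m % e ≤ m / e := by omega
      zify [h6]
      have h7 : (e : ℤ) * ((m / e : ℕ) : ℤ) + ((m % e : ℕ) : ℤ) = m := by exact_mod_cast h3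
      push_cast at h7 ⊢
      linarith
  rw [hxy]
  exact hadd _ _ (hmul e p1 x) (hmul (e + 1) p2 y) n (by omega)

theorem ge_mul_ge {n₀ : ℕ} (hg : Gen 𝒜 n₀) {M N : ℕ} (hM : n₀ ≤ M) (hN : n₀ ≤ N) :
    idealGE 𝒜 M * idealGE 𝒜 N = idealGE 𝒜 (M + N) := by
  refine le_antisymm (idealGE_mul M N) (idealGE_le fun n hn x hx => ?_)
  have h1 : x ∈ 𝒜 (M + (n - M)) := by rwa [show M + (n - M) = n by omega]
  exact mul_mem_ideal (fun y hy => mem_idealGE le_rfl hy) (fun y hy => mem_idealGE (by omega) hy)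
    (hg M (n - M) hM (by omega) h1)

theorem ge_pow {n₀ : ℕ} (hg : Gen 𝒜 n₀) {N : ℕ} (hN : n₀ ≤ N) (r : ℕ) :
    idealGE 𝒜 N ^ (r + 1) = idealGE 𝒜 ((r + 1) * N) := by
  induction r with
  | zero => rw [zero_add, pow_one, one_mul]
  | succ r ih =>
    rw [pow_succ, ih, ge_mul_ge hg (by nlinarith) hN]
    congr 1
    ring

/-- The homogeneous elements of the ideal generated by finitely many elements of the degree `N`. -/
theorem exists_coeff {ι : Type*} [Fintype ι] {f : ι → S} {N n : ℕ} (hf : ∀ i, f i ∈ 𝒜 N)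
    (hn : N ≤ n) {x : S} (hx : x ∈ 𝒜 n) (hxf : x ∈ Ideal.span (Set.range f)) :
    ∃ c : ι → S, (∀ i, c i ∈ 𝒜 (n - N)) ∧ x = ∑ i, c i * f i := by
  obtain ⟨c, hc⟩ := Ideal.mem_span_range_iff_exists_fun.1 hxf
  refine ⟨fun i => comp 𝒜 (n - N) (c i), fun i => comp_mem _ _, ?_⟩
  rw [← comp_same hx, ← hc, comp_sum]
  refine Finset.sum_congr rfl fun i _ => ?_
  rw [mul_comm, comp_mul (hf i) hn, mul_comm]

/-- The reduction which is not homogeneous. -/
theorem reduction_of {D N M n₀ : ℕ} (hg : Gen 𝒜 n₀) (hN : n₀ ≤ N) (hN1 : 1 ≤ N) (hM : N ≤ M)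
    {f : Fin (D + 1) → S} (hf : ∀ i, f i ∈ 𝒜 N) (hfin : Primary 𝒜 (Set.range f)) {h : S}
    (hh : h ∈ 𝒜 (N + 1)) :
    IsReduction (Ideal.span {f (Fin.last D) + h} ⊔ Ideal.span (Set.range fun i : Fin D => f i.castSucc) ⊔
      idealGE 𝒜 M) (idealGE 𝒜 N) := by
  set J := Ideal.span {f (Fin.last D) + h} ⊔ Ideal.span (Set.range fun i : Fin D => f i.castSucc) ⊔
      idealGE 𝒜 M with hJdef
  have hJI : J ≤ idealGE 𝒜 N := by
    refine sup_le (sup_le ?_ ?_) (idealGE_anti hM)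
    · rw [Ideal.span_le, Set.singleton_subset_iff]
      exact Ideal.add_mem _ (mem_idealGE le_rfl (hf _)) (mem_idealGE (by omega) hh)
    · rw [Ideal.span_le]
      rintro _ ⟨i, rfl⟩
      exact mem_idealGE le_rfl (hf _)
  have m1 : f (Fin.last D) + h ∈ J := Ideal.mem_sup_left (Ideal.mem_sup_left (Ideal.mem_span_singleton_self _))
  have m2 : ∀ i : Fin D, f i.castSucc ∈ J := fun i =>
    Ideal.mem_sup_left (Ideal.mem_sup_right (Ideal.subset_span ⟨i, rfl⟩))
  have m3 : idealGE 𝒜 M ≤ J := le_sup_right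
  obtain ⟨b, hb⟩ := hfin
  refine ⟨hJI, b + 1, ?_⟩
  rw [ge_pow hg hN b, ge_pow hg hN (b + 1)]
  have hbig : n₀ ≤ (b + 1) * N := by nlinarith
  refine le_antisymm ?_ ?_
  · refine (Ideal.mul_mono hJI le_rfl).trans ((idealGE_mul _ _).trans (le_of_eq ?_))
    congr 1
    ring
  · have key : ∀ k n, M + (b + 1) * N ≤ n + k → (b + 1 + 1) * N ≤ n → ∀ x ∈ 𝒜 n,
        x ∈ J * idealGE 𝒜 ((b + 1) * N) := by
      have top : ∀ n, M + (b + 1) * N ≤ n → ∀ x ∈ 𝒜 n, x ∈ J * idealGE 𝒜 ((b + 1) * N) := by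
        intro n hn x hx
        have h1 : x ∈ 𝒜 ((n - (b + 1) * N) + (b + 1) * N) := by
          rwa [show (n - (b + 1) * N) + (b + 1) * N = n by omega]
        exact mul_mem_ideal (fun y hy => m3 (mem_idealGE (by omega) hy))
          (fun y hy => mem_idealGE le_rfl hy) (hg _ _ (by omega) hbig h1)
      intro k
      induction k with
      | zero => exact fun n hn _ x hx => top n (by omega) x hx
      | succ k ih =>
        intro n hn hn2 x hx
        have e1 : (b + 1 + 1) * N = (b + 1) * N + N := by ring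
        have hbn : b ≤ n := by nlinarith
        obtain ⟨c, hc, hxc⟩ := exists_coeff hf (by omega) hx (hb n hbn x hx)
        have h2 : x = (c (Fin.last D) * (f (Fin.last D) + h) + ∑ i : Fin D, c i.castSucc * f i.castSucc) -
            c (Fin.last D) * h := by
          rw [hxc, Fin.sum_univ_castSucc]
          ring
        rw [h2]
        refine Ideal.sub_mem _ (Ideal.add_mem _ ?_ ?_) ?_
        · exact Ideal.mul_mem_mul_rev m1 (mem_idealGE (by omega) (hc _))
        · refine Ideal.sum_mem _ fun i _ => ?_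
          exact Ideal.mul_mem_mul_rev (m2 i) (mem_idealGE (by omega) (hc _))
        · refine ih (n + 1) (by omega) (by omega) _ ?_
          have h3 := SetLike.mul_mem_graded (hc (Fin.last D)) hh
          rwa [show n - N + (N + 1) = n + 1 by omega] at h3
    refine idealGE_le fun n hn x hx => key (M + (b + 1) * N) n (by omega) hn x hx

/-- The elements of lowest degree of a homogeneous reduction. -/
theorem primary_of_reduction {N n₀ : ℕ} (hg : Gen 𝒜 n₀) (hN : n₀ ≤ N) {J : Ideal S}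
    (hJ : J.IsHomogeneous 𝒜) (hred : IsReduction J (idealGE 𝒜 N)) :
    Primary 𝒜 {y | y ∈ J ∧ y ∈ 𝒜 N} := by
  obtain ⟨hJI, r, hr⟩ := hred
  have hr' : J * idealGE 𝒜 N ^ (r + 1) = idealGE 𝒜 N ^ (r + 1 + 1) := by
    rw [pow_succ, ← mul_assoc, hr, ← pow_succ]
  rw [ge_pow hg hN, ge_pow hg hN] at hr'
  set L : Ideal S := Ideal.span {y | y ∈ J ∧ y ∈ 𝒜 N} with hL
  have hLhom : L.IsHomogeneous 𝒜 := Ideal.homogeneous_span _ _ fun y hy => ⟨N, hy.2⟩
  have h1 : J ≤ L ⊔ idealGE 𝒜 (N + 1) := by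
    intro y hy
    obtain ⟨s, hs, -⟩ := exists_sum (𝒜 := 𝒜) y
    rw [hs]
    refine Ideal.sum_mem _ fun n _ => ?_
    rcases lt_trichotomy n N with h | h | h
    · rw [comp_eq_zero (hJI hy) h]
      exact Ideal.zero_mem _
    · subst h
      exact Ideal.mem_sup_left (Ideal.subset_span ⟨comp_hom hJ hy _, comp_mem _ _⟩)
    · exact Ideal.mem_sup_right (mem_idealGE h (comp_mem _ _))
  have h2 : idealGE 𝒜 ((r + 1 + 1) * N) ≤ L ⊔ idealGE 𝒜 ((r + 1 + 1) * N + 1) := by
    rw [← hr']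
    refine (Ideal.mul_mono h1 le_rfl).trans ?_
    rw [Ideal.sup_mul]
    refine sup_le (Ideal.mul_le_left.trans le_sup_left) ?_
    refine (idealGE_mul _ _).trans (le_sup_of_le_right (le_of_eq ?_))
    congr 1
    ring
  have h3 : ∀ x ∈ 𝒜 ((r + 1 + 1) * N), x ∈ L := by
    intro x hx
    obtain ⟨y, hy, w, hw, hyw⟩ := Submodule.mem_sup.1 (h2 (mem_idealGE le_rfl hx))
    rw [← comp_same hx, ← hyw, comp_add, comp_eq_zero hw (by omega), add_zero]
    exact comp_hom hLhom hy _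
  refine ⟨(r + 1 + 1) * N + n₀, fun n hn x hx => ?_⟩
  have h4 : x ∈ 𝒜 ((r + 1 + 1) * N + (n - (r + 1 + 1) * N)) := by
    rwa [show (r + 1 + 1) * N + (n - (r + 1 + 1) * N) = n by omega]
  have h5 := mul_mem_ideal (I := L) (J := ⊤) h3 (fun _ _ => Submodule.mem_top)
    (hg _ _ (by nlinarith) (by omega) h4)
  exact Ideal.mul_le_left h5

/-- **Core and graded core differ.** Hypotheses: generation in large degrees; every subspace of `𝒜 N` which
generates a primary ideal contains `D + 1` elements which generate a primary ideal (`ex`); for all such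
elements `f`, the last one is regular modulo the others, all elements of degree `(D + 1) N - 2` are in
the ideal `(f)`, and some element of degree `(D + 1) N - 1` is not. -/
theorem core_ne {D N n₀ : ℕ} (hD : 1 ≤ D) (hg : Gen 𝒜 n₀) (hN : n₀ + 2 ≤ N)
    (ex : ∀ V : Submodule K S, V ≤ 𝒜 N → Primary 𝒜 (V : Set S) →
      ∃ f : Fin (D + 1) → S, (∀ i, f i ∈ V) ∧ Primary 𝒜 (Set.range f))
    (reg : ∀ f : Fin (D + 1) → S, (∀ i, f i ∈ 𝒜 N) → Primary 𝒜 (Set.range f) →
      ∀ x, f (Fin.last D) * x ∈ Ideal.span (Set.range fun i : Fin D => f i.castSucc) →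
        x ∈ Ideal.span (Set.range fun i : Fin D => f i.castSucc))
    (low : ∀ f : Fin (D + 1) → S, (∀ i, f i ∈ 𝒜 N) → Primary 𝒜 (Set.range f) →
      ∀ x ∈ 𝒜 ((D + 1) * N - 2), x ∈ Ideal.span (Set.range f))
    (soc : ∀ f : Fin (D + 1) → S, (∀ i, f i ∈ 𝒜 N) → Primary 𝒜 (Set.range f) →
      ∃ x ∈ 𝒜 ((D + 1) * N - 1), x ∉ Ideal.span (Set.range f)) :
    core (idealGE 𝒜 N) ≠ gradedCore 𝒜 (idealGE 𝒜 N) := by
  classical
  -- parameters in `𝒜 N`
  have hprim : Primary 𝒜 (𝒜 N : Set S) := by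
    refine ⟨N + n₀, fun n hn x hx => ?_⟩
    have h4 : x ∈ 𝒜 (N + (n - N)) := by rwa [show N + (n - N) = n by omega]
    have h5 := mul_mem_ideal (I := Ideal.span (𝒜 N : Set S)) (J := ⊤)
      (fun y hy => Ideal.subset_span hy) (fun _ _ => Submodule.mem_top) (hg _ _ (by omega) (by omega) h4)
    exact Ideal.mul_le_left h5
  obtain ⟨f, hf, hfp⟩ := ex (𝒜 N) le_rfl hprim
  set J₁ : Ideal S := Ideal.span (Set.range fun i : Fin D => f i.castSucc) with hJ₁
  have hspan : Ideal.span (Set.range f) = Ideal.span {f (Fin.last D)} ⊔ J₁ := by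
    rw [hJ₁, ← Ideal.span_union]
    congr 1
    ext y
    simp only [Set.mem_range, Set.mem_union, Set.mem_singleton_iff]
    constructor
    · rintro ⟨i, rfl⟩
      rcases Fin.eq_castSucc_or_eq_last i with ⟨j, rfl⟩ | rfl
      · exact Or.inr ⟨j, rfl⟩
      · exact Or.inl rfl
    · rintro (rfl | ⟨j, rfl⟩)
      · exact ⟨_, rfl⟩
      · exact ⟨_, rfl⟩
  obtain ⟨x, hx, hxf⟩ := soc f hf hfp
  have hDN : N ≤ D * N := Nat.le_mul_of_pos_left N hD
  have e1 : (D + 1) * N = D * N + N := by ring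
  -- `h` and `a`
  obtain ⟨h, hh, a, ha, hha⟩ : ∃ h ∈ 𝒜 (N + 1), ∃ a ∈ 𝒜 (D * N - 2), h * a ∉ Ideal.span (Set.range f) := by
    by_contra hcon
    push Not at hcon
    apply hxf
    have h4 : x ∈ 𝒜 ((N + 1) + (D * N - 2)) := by
      rwa [show (N + 1) + (D * N - 2) = (D + 1) * N - 1 by omega]
    refine Submodule.mul_induction_on (hg _ _ (by omega) (by omega) h4) hcon
      fun a b ha hb => Ideal.add_mem _ ha hb
  -- the element `a f_D`
  intro heq
  have hmem : a * f (Fin.last D) ∈ gradedCore 𝒜 (idealGE 𝒜 N) := by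
    rw [gradedCore, Ideal.mem_sInf]
    rintro J ⟨hJhom, hJred⟩
    have hp := primary_of_reduction hg (by omega) hJhom hJred
    let V : Submodule K S := (J.restrictScalars K) ⊓ 𝒜 N
    have hV : (V : Set S) = {y | y ∈ J ∧ y ∈ 𝒜 N} := rfl
    obtain ⟨f', hf', hfp'⟩ := ex V inf_le_right (by rw [hV]; exact hp)
    have h6 := low f' (fun i => (hf' i).2) hfp' (a * f (Fin.last D)) (by
      have h7 := SetLike.mul_mem_graded ha (hf (Fin.last D))
      rwa [show D * N - 2 + N = (D + 1) * N - 2 by omega] at h7)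
    refine Ideal.span_le.2 ?_ h6
    rintro _ ⟨i, rfl⟩
    exact (hf' i).1
  rw [← heq, core, Ideal.mem_sInf] at hmem
  have hred := reduction_of (M := D * N + N + N) hg (by omega) (by omega) (by omega) hf hfp hh
  have h8 := lowest (Ideal.homogeneous_span _ _ fun y hy => by
      obtain ⟨i, rfl⟩ := hy
      exact ⟨N, hf _⟩) (hf (Fin.last D)) hh ha (reg f hf hfp) (by omega) (hmem hred)
  rw [← hJ₁, ← hspan] at h8
  exact hha h8

end Pool.Agent.T9h86.Core
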